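import Pool.Agent.Q111.CookieMain

/-!
# Winning components of strict cookie-game positions

A position is a finite non-decreasing list of heap sizes. A move removes one heap of positive size
and decreases every other heap of positive size by one; the player who cannot move loses. The
definitions `move`, `TypeN`, `Winning` and `Strict` are in `Pool.Agent.Q111.CookieDefs`.

The statement in question is proved: in a strict position of type `N` the winning components form a
block of consecutive indices, and they are exactly the components whose size lies in a certain
interval.
-/

namespace Pool.Agent.Results.MP_900844_co.WinningBlock

open Q111.Cookie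

/-- For every strict position `G` of type `N`, the set of the indices of the winning components is
a non-empty block `{i, ..., j}` of consecutive indices; and there are numbers `a`, `b` such that a
component is winning exactly when its size lies between `a` and `b`. -/
theorem result (G : List ℕ) (hsorted : G.Pairwise (· ≤ ·)) (hstrict : Strict G) (hN : TypeN G) :
    (∃ i j : ℕ, i ≤ j ∧ j < G.length ∧ ∀ k, Winning G k ↔ i ≤ k ∧ k ≤ j) ∧
      ∃ a b : ℕ, ∀ (k : ℕ) (hk : k < G.length), Winning G k ↔ a ≤ G[k] ∧ G[k] ≤ b :=
  main G hsorted hstrict hN

end Pool.Agent.Results.MP_900844_co.WinningBlock
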